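import Pool.Agent.H741.RS.Stm

/-!
# Project RS: orbits are immersed (statement S_DIST of Stm)

A compact group of contractions of a normed ring with a subadditive invariant function: the distance to
the zero set is bounded by a multiple of the function.
-/

set_option autoImplicit false

open Filter Topology

namespace Pool.Agent.H448.RS.DIST

/-- a compact group of contractions with a subadditive function -/
structure Dat {G : Type} [Group G] {A : Type} [NormedRing A] (c : G →* A) (φ : G → ℝ) : Prop where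
  nrm : ∀ g, ‖c g‖ ≤ 1
  cl : ∀ (u : ℕ → G) (T : A), Tendsto (fun m => c (u m)) atTop (𝓝 T) →
    ∃ g, c g = T ∧ Tendsto (fun m => φ (u m)) atTop (𝓝 (φ g))
  nn : ∀ g, 0 ≤ φ g
  one : φ 1 = 0
  mul : ∀ g g', φ (g * g') ≤ φ g + φ g'
  inv : ∀ g, φ g⁻¹ = φ g

section
variable {G : Type} [Group G] {A : Type} [NormedRing A] {c : G →* A} {φ : G → ℝ}

theorem Dat.subseq [ProperSpace A] (h : Dat c φ) (u : ℕ → G) :
    ∃ (ψ : ℕ → ℕ) (g : G), StrictMono ψ ∧ Tendsto (fun m => c (u (ψ m))) atTop (𝓝 (c g)) ∧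
      Tendsto (fun m => φ (u (ψ m))) atTop (𝓝 (φ g)) := by
  obtain ⟨T, _, ψ, h1, h2⟩ := (isCompact_closedBall (0 : A) 1).tendsto_subseq
    (x := fun m => c (u m)) (fun m => by
      rw [mem_closedBall_zero_iff]
      exact h.nrm _)
  obtain ⟨g, h3, h4⟩ := h.cl (fun m => u (ψ m)) T h2
  refine ⟨ψ, g, h1, ?_, h4⟩
  rw [h3]
  exact h2

theorem Dat.pow_sub (h : Dat c φ) (u : G) (j : ℕ) : ‖c (u ^ j) - 1‖ ≤ j * ‖c u - 1‖ := by
  induction j with
  | zero => simp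
  | succ j ih =>
    have h1 : c (u ^ (j + 1)) - 1 = (c (u ^ j) - 1) * c u + (c u - 1) := by
      rw [pow_succ, map_mul]
      noncomm_ring
    rw [h1]
    refine (norm_add_le _ _).trans ?_
    have h2 := norm_mul_le (c (u ^ j) - 1) (c u)
    have h3 := h.nrm u
    have h4 : ‖c (u ^ j) - 1‖ * ‖c u‖ ≤ ‖c (u ^ j) - 1‖ * 1 :=
      mul_le_mul_of_nonneg_left h3 (norm_nonneg _)
    push_cast
    linarith

theorem Dat.pow_sub2 (h : Dat c φ) (u : G) (j : ℕ) :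
    ‖c (u ^ j) - 1 - (j : A) * (c u - 1)‖ ≤ (j : ℝ) ^ 2 * ‖c u - 1‖ ^ 2 := by
  induction j with
  | zero => simp
  | succ j ih =>
    have h1 : c (u ^ (j + 1)) - 1 - ((j + 1 : ℕ) : A) * (c u - 1) =
        (c (u ^ j) - 1 - (j : A) * (c u - 1)) + (c (u ^ j) - 1) * (c u - 1) := by
      rw [pow_succ, map_mul]
      push_cast
      noncomm_ring
    rw [h1]
    refine (norm_add_le _ _).trans ?_
    have h2 := norm_mul_le (c (u ^ j) - 1) (c u - 1)
    have h3 := h.pow_sub u j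
    have h4 : ‖c (u ^ j) - 1‖ * ‖c u - 1‖ ≤ (j * ‖c u - 1‖) * ‖c u - 1‖ :=
      mul_le_mul_of_nonneg_right h3 (norm_nonneg _)
    push_cast
    nlinarith [norm_nonneg (c u - 1), sq_nonneg ‖c u - 1‖, mul_nonneg (Nat.cast_nonneg (α := ℝ) j) (sq_nonneg ‖c u - 1‖)]

theorem Dat.pow_phi (h : Dat c φ) (u : G) (j : ℕ) : φ (u ^ j) ≤ j * φ u := by
  induction j with
  | zero => simp [h.one]
  | succ j ih =>
    rw [pow_succ]
    refine (h.mul _ _).trans ?_
    push_cast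
    linarith

theorem Dat.compact [ProperSpace A] (h : Dat c φ) : IsCompact (c '' {s | φ s = 0}) := by
  apply IsSeqCompact.isCompact
  intro x hx
  choose u h1 h2 using hx
  obtain ⟨ψ, g, h3, h4, h5⟩ := h.subseq u
  refine ⟨c g, ⟨g, ?_, rfl⟩, ψ, h3, ?_⟩
  · have h6 : (fun m => φ (u (ψ m))) = fun _ => (0 : ℝ) := by
      funext m
      exact h1 (ψ m)
    rw [h6] at h5
    exact tendsto_nhds_unique h5 tendsto_const_nhds
  · have h6 : x ∘ ψ = fun m => c (u (ψ m)) := by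
      funext m
      exact (h2 (ψ m)).symm
    rw [h6]
    exact h4

/-- the elements near the tangent line -/
theorem Dat.tangent [ProperSpace A] [NormedAlgebra ℝ A] (h : Dat c φ) (u : ℕ → G) (Y : A)
    (h1 : ∀ m, 0 < ‖c (u m) - 1‖) (h2 : Tendsto (fun m => ‖c (u m) - 1‖) atTop (𝓝 0))
    (h3 : Tendsto (fun m => φ (u m) / ‖c (u m) - 1‖) atTop (𝓝 0))
    (h4 : Tendsto (fun m => ‖c (u m) - 1‖⁻¹ • (c (u m) - 1)) atTop (𝓝 Y)) (t : ℝ) (ht : 0 < t) :
    ∃ s, φ s = 0 ∧ ‖c s - 1 - t • Y‖ ≤ t ^ 2 := by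
  obtain ⟨ψ, s, h5, h6, h7⟩ := h.subseq (fun m => u m ^ ⌊t / ‖c (u m) - 1‖⌋₊)
  refine ⟨s, ?_, ?_⟩
  · have h8 : Tendsto (fun m => t * (φ (u (ψ m)) / ‖c (u (ψ m)) - 1‖)) atTop (𝓝 0) := by
      have h9 := (h3.comp h5.tendsto_atTop).const_mul t
      rw [mul_zero] at h9
      exact h9
    apply le_antisymm _ (h.nn s)
    refine le_of_tendsto_of_tendsto' h7 h8 ?_
    intro m
    refine (h.pow_phi _ _).trans ?_
    have h10 : ((⌊t / ‖c (u (ψ m)) - 1‖⌋₊ : ℕ) : ℝ) ≤ t / ‖c (u (ψ m)) - 1‖ :=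
      Nat.floor_le (by have := h1 (ψ m); positivity)
    have h11 := mul_le_mul_of_nonneg_right h10 (h.nn (u (ψ m)))
    refine h11.trans (le_of_eq ?_)
    ring
  · have hj : Tendsto (fun m => ((⌊t / ‖c (u m) - 1‖⌋₊ : ℕ) : ℝ) * ‖c (u m) - 1‖) atTop (𝓝 t) := by
      have h9 : Tendsto (fun m => t - ‖c (u m) - 1‖) atTop (𝓝 t) := by
        have := h2.const_sub t
        rwa [sub_zero] at this
      refine tendsto_of_tendsto_of_tendsto_of_le_of_le h9 tendsto_const_nhds ?_ ?_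
      · intro m
        have h10 := Nat.lt_floor_add_one (t / ‖c (u m) - 1‖)
        rw [div_lt_iff₀ (h1 m)] at h10
        show t - ‖c (u m) - 1‖ ≤ ((⌊t / ‖c (u m) - 1‖⌋₊ : ℕ) : ℝ) * ‖c (u m) - 1‖
        linarith
      · intro m
        have h10 : ((⌊t / ‖c (u m) - 1‖⌋₊ : ℕ) : ℝ) ≤ t / ‖c (u m) - 1‖ :=
          Nat.floor_le (by have := h1 m; positivity)
        rw [le_div_iff₀ (h1 m)] at h10
        exact h10
    have h8 : Tendsto (fun m => ‖c (u (ψ m) ^ ⌊t / ‖c (u (ψ m)) - 1‖⌋₊) - 1 -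
        (((⌊t / ‖c (u (ψ m)) - 1‖⌋₊ : ℕ) : ℝ) * ‖c (u (ψ m)) - 1‖) •
          (‖c (u (ψ m)) - 1‖⁻¹ • (c (u (ψ m)) - 1))‖) atTop (𝓝 ‖c s - 1 - t • Y‖) := by
      apply Tendsto.norm
      apply Tendsto.sub
      · exact h6.sub_const 1
      · exact (hj.comp h5.tendsto_atTop).smul (h4.comp h5.tendsto_atTop)
    refine le_of_tendsto' h8 ?_
    intro m
    have h9 := h.pow_sub2 (u (ψ m)) ⌊t / ‖c (u (ψ m)) - 1‖⌋₊
    have h10 : (((⌊t / ‖c (u (ψ m)) - 1‖⌋₊ : ℕ) : ℝ) * ‖c (u (ψ m)) - 1‖) •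
          (‖c (u (ψ m)) - 1‖⁻¹ • (c (u (ψ m)) - 1)) =
        ((⌊t / ‖c (u (ψ m)) - 1‖⌋₊ : ℕ) : A) * (c (u (ψ m)) - 1) := by
      rw [smul_smul, mul_assoc, mul_inv_cancel₀ (h1 (ψ m)).ne', mul_one, Nat.cast_smul_eq_nsmul,
        nsmul_eq_mul]
    rw [h10]
    refine h9.trans ?_
    have h11 : ((⌊t / ‖c (u (ψ m)) - 1‖⌋₊ : ℕ) : ℝ) * ‖c (u (ψ m)) - 1‖ ≤ t := by
      have h12 : ((⌊t / ‖c (u (ψ m)) - 1‖⌋₊ : ℕ) : ℝ) ≤ t / ‖c (u (ψ m)) - 1‖ :=
          Nat.floor_le (by have := h1 (ψ m); positivity)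
      rwa [le_div_iff₀ (h1 (ψ m))] at h12
    rw [← mul_pow]
    exact pow_le_pow_left₀ (by positivity) h11 2

/-- the main lemma -/
theorem Dat.main [ProperSpace A] [NormedAlgebra ℝ A] (h : Dat c φ) :
    ∃ K : ℝ, 0 ≤ K ∧ ∀ g, ∃ s, φ s = 0 ∧ ‖c g - c s‖ ≤ K * φ g := by
  by_contra hcon
  push Not at hcon
  have h0 : ∀ m : ℕ, ∃ g, ∀ s, φ s = 0 → (m : ℝ) * φ g < ‖c g - c s‖ := fun m =>
    hcon m (Nat.cast_nonneg m)
  choose g hg using h0
  -- nearest points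
  have h1 : ∀ m : ℕ, ∃ s, φ s = 0 ∧ ∀ s', φ s' = 0 → ‖c (g m) - c s‖ ≤ ‖c (g m) - c s'‖ := by
    intro m
    obtain ⟨y, ⟨s, hs, rfl⟩, hy⟩ := h.compact.exists_infDist_eq_dist
      ⟨c 1, 1, h.one, rfl⟩ (c (g m))
    refine ⟨s, hs, ?_⟩
    intro s' hs'
    rw [← dist_eq_norm, ← dist_eq_norm, ← hy]
    exact Metric.infDist_le_dist_of_mem ⟨s', hs', rfl⟩
  choose s hs hs2 using h1
  -- replace `g m` by `g m * (s m)⁻¹`
  have h2 : ∀ m : ℕ, ∃ v : G, 0 < ‖c v - 1‖ ∧ (∀ s', φ s' = 0 → ‖c v - 1‖ ≤ ‖c v - c s'‖) ∧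
      (m : ℝ) * φ v < ‖c v - 1‖ := by
    intro m
    have hle : ∀ a b w : G, ‖c (a * w) - c (b * w)‖ ≤ ‖c a - c b‖ := by
      intro a b w
      rw [map_mul, map_mul, ← sub_mul]
      refine (norm_mul_le _ _).trans ?_
      have := mul_le_mul_of_nonneg_left (h.nrm w) (norm_nonneg (c a - c b))
      linarith
    have ha : ‖c (g m * (s m)⁻¹) - 1‖ ≤ ‖c (g m) - c (s m)‖ := by
      have := hle (g m) (s m) (s m)⁻¹
      rwa [mul_inv_cancel, map_one] at this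
    have hb : ∀ s', φ s' = 0 → ‖c (g m) - c (s m)‖ ≤ ‖c (g m * (s m)⁻¹) - c s'‖ := by
      intro s' hs'
      have h5 := hle (g m * (s m)⁻¹) s' (s m)
      rw [inv_mul_cancel_right] at h5
      refine (hs2 m (s' * s m) ?_).trans h5
      apply le_antisymm _ (h.nn _)
      refine (h.mul _ _).trans ?_
      rw [hs', hs m, add_zero]
    have hb1 := hb 1 h.one
    rw [map_one] at hb1
    have hc : φ (g m * (s m)⁻¹) ≤ φ (g m) := by
      refine (h.mul _ _).trans ?_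
      rw [h.inv, hs m, add_zero]
    have hd := hg m (s m) (hs m)
    refine ⟨g m * (s m)⁻¹, ?_, ?_, ?_⟩
    · have he : 0 ≤ (m : ℝ) * φ (g m) := mul_nonneg (Nat.cast_nonneg m) (h.nn _)
      linarith
    · intro s' hs'
      exact ha.trans (hb s' hs')
    · have he : (m : ℝ) * φ (g m * (s m)⁻¹) ≤ (m : ℝ) * φ (g m) :=
        mul_le_mul_of_nonneg_left hc (Nat.cast_nonneg m)
      linarith
  choose v hv1 hv2 hv3 using h2
  -- the ratios tend to zero
  have h3 : Tendsto (fun m => φ (v m) / ‖c (v m) - 1‖) atTop (𝓝 0) := by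
    have h4 : Tendsto (fun m : ℕ => ((m : ℝ))⁻¹) atTop (𝓝 0) := tendsto_inv_atTop_nhds_zero_nat
    refine squeeze_zero' (Eventually.of_forall fun m => div_nonneg (h.nn _) (norm_nonneg _)) ?_ h4
    filter_upwards [eventually_gt_atTop 0] with m hm
    have hm' : (0 : ℝ) < m := by exact_mod_cast hm
    rw [div_le_iff₀ (hv1 m), inv_mul_eq_div, le_div_iff₀ hm', mul_comm]
    exact (hv3 m).le
  have hbd : ∀ m, ‖c (v m) - 1‖ ≤ 2 := by
    intro m
    have h5 := norm_sub_le (c (v m)) (c 1)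
    have h6 := h.nrm (v m)
    have h7 := h.nrm 1
    rw [map_one] at h5 h7
    linarith
  have h4 : Tendsto (fun m => φ (v m)) atTop (𝓝 0) := by
    have h5 := h3.mul_const 2
    rw [zero_mul] at h5
    refine squeeze_zero (fun m => h.nn _) ?_ h5
    intro m
    rw [div_mul_eq_mul_div, le_div_iff₀ (hv1 m)]
    exact mul_le_mul_of_nonneg_left (hbd m) (h.nn _)
  obtain ⟨ψ, w, h5, h6, h7⟩ := h.subseq v
  have hw : φ w = 0 := tendsto_nhds_unique h7 (h4.comp h5.tendsto_atTop)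
  have h8 : Tendsto (fun m => ‖c (v (ψ m)) - 1‖) atTop (𝓝 0) := by
    have h9 : Tendsto (fun m => ‖c (v (ψ m)) - c w‖) atTop (𝓝 0) := by
      have := (h6.sub_const (c w)).norm
      rwa [sub_self, norm_zero] at this
    exact squeeze_zero (fun m => norm_nonneg _) (fun m => hv2 (ψ m) w hw) h9
  obtain ⟨Y, _, ψ', h9, h10⟩ := (isCompact_closedBall (0 : A) 1).tendsto_subseq
    (x := fun m => ‖c (v (ψ m)) - 1‖⁻¹ • (c (v (ψ m)) - 1)) (fun m => by
      rw [mem_closedBall_zero_iff, norm_smul, norm_inv, norm_norm,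
        inv_mul_cancel₀ (hv1 (ψ m)).ne'])
  have h11 := h.tangent (fun m => v (ψ (ψ' m))) Y (fun m => hv1 _) (h8.comp h9.tendsto_atTop)
    ((h3.comp h5.tendsto_atTop).comp h9.tendsto_atTop) h10
  have h12 : Tendsto (fun m => ‖‖c (v (ψ (ψ' m))) - 1‖⁻¹ • (c (v (ψ (ψ' m))) - 1) - Y‖ +
      ‖c (v (ψ (ψ' m))) - 1‖) atTop (𝓝 0) := by
    have h13 : Tendsto (fun m => ‖‖c (v (ψ (ψ' m))) - 1‖⁻¹ • (c (v (ψ (ψ' m))) - 1) - Y‖)
        atTop (𝓝 0) := by
      have := (h10.sub_const Y).norm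
      rw [sub_self, norm_zero] at this
      exact this
    have := h13.add (h8.comp h9.tendsto_atTop)
    rw [add_zero] at this
    exact this
  have h13 : ∀ m, (1 : ℝ) ≤ ‖‖c (v (ψ (ψ' m))) - 1‖⁻¹ • (c (v (ψ (ψ' m))) - 1) - Y‖ +
      ‖c (v (ψ (ψ' m))) - 1‖ := by
    intro m
    have hd : 0 < ‖c (v (ψ (ψ' m))) - 1‖ := hv1 _
    obtain ⟨s', hs', hs''⟩ := h11 ‖c (v (ψ (ψ' m))) - 1‖ hd
    have h14 := hv2 (ψ (ψ' m)) s' hs'
    have h15 : c (v (ψ (ψ' m))) - c s' = (‖c (v (ψ (ψ' m))) - 1‖ •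
        (‖c (v (ψ (ψ' m))) - 1‖⁻¹ • (c (v (ψ (ψ' m))) - 1) - Y)) -
        (c s' - 1 - ‖c (v (ψ (ψ' m))) - 1‖ • Y) := by
      rw [smul_sub, smul_smul, mul_inv_cancel₀ hd.ne', one_smul]
      abel
    rw [h15] at h14
    have h16 := h14.trans (norm_sub_le _ _)
    rw [norm_smul, norm_norm] at h16
    have h17 := h16.trans (add_le_add_right hs'' _)
    by_contra hlt
    push Not at hlt
    nlinarith
  have h14 := ge_of_tendsto' h12 h13
  linarith

end

section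
open Pool.Agent.H741.RS

/-- the unitary maps commuting with `h` -/
def Cen {n : ℕ} (h : V n →L[ℂ] V n) : Subgroup (V n ≃ₗᵢ[ℂ] V n) where
  carrier := {U | Cm h U}
  one_mem' := fun _ => rfl
  mul_mem' := by
    intro U W hU hW z
    show h (U (W z)) = U (W (h z))
    rw [hU, hW]
  inv_mem' := by
    intro U hU z
    show h (U.symm z) = U.symm (h z)
    have h1 := hU (U.symm z)
    rw [LinearIsometryEquiv.apply_symm_apply] at h1
    rw [h1, LinearIsometryEquiv.symm_apply_apply]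

/-- the operator of a unitary map -/
noncomputable def cc {n : ℕ} (h : V n →L[ℂ] V n) : Cen h →* (V n →L[ℂ] V n) where
  toFun U := ((U.1 : V n ≃ₗᵢ[ℂ] V n) : V n →L[ℂ] V n)
  map_one' := by
    ext z
    rfl
  map_mul' := by
    intro U W
    ext z
    rfl

theorem cc_apply {n : ℕ} (h : V n →L[ℂ] V n) (U : Cen h) (z : V n) : cc h U z = U.1 z := rfl

variable {n : ℕ} {E : Type} [NormedAddCommGroup E] [InnerProductSpace ℝ E]

theorem phi_mul (R : Rep n E) (x : E) (U W : V n ≃ₗᵢ[ℂ] V n) :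
    ‖R.ρ (U * W) x - x‖ ≤ ‖R.ρ U x - x‖ + ‖R.ρ W x - x‖ := by
  have h1 : R.ρ (U * W) x - x = (R.ρ U x - x) + R.ρ U (R.ρ W x - x) := by
    rw [map_mul, map_sub]
    show R.ρ U (R.ρ W x) - x = _
    abel
  rw [h1]
  refine (norm_add_le _ _).trans ?_
  rw [LinearIsometryEquiv.norm_map]

theorem phi_inv (R : Rep n E) (x : E) (U : V n ≃ₗᵢ[ℂ] V n) :
    ‖R.ρ U⁻¹ x - x‖ = ‖R.ρ U x - x‖ := by
  have h1 : R.ρ U (R.ρ U⁻¹ x) = x := by
    have h2 : (R.ρ U * R.ρ U⁻¹) x = x := by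
      rw [← map_mul, mul_inv_cancel, map_one]
      rfl
    exact h2
  rw [← LinearIsometryEquiv.norm_map (R.ρ U) (R.ρ U⁻¹ x - x), map_sub, h1, norm_sub_rev]

theorem dat (R : Rep n E) (h : V n →L[ℂ] V n) (x : E) :
    Dat (cc h) (fun U => ‖R.ρ U.1 x - x‖) where
  nrm U := by
    apply ContinuousLinearMap.opNorm_le_bound _ zero_le_one
    intro z
    rw [one_mul, cc_apply]
    exact (U.1.norm_map z).le
  cl := by
    intro u T hT
    have hz : ∀ z, Tendsto (fun m => (u m).1 z) atTop (𝓝 (T z)) := by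
      intro z
      have h1 := ((ContinuousLinearMap.apply ℂ (V n) z).continuous.tendsto T).comp hT
      exact h1
    have hn : ∀ z, ‖T z‖ = ‖z‖ := by
      intro z
      have h1 := (hz z).norm
      have h2 : (fun m => ‖(u m).1 z‖) = fun _ => ‖z‖ := by
        funext m
        exact (u m).1.norm_map z
      rw [h2] at h1
      exact tendsto_nhds_unique h1 tendsto_const_nhds |>.symm ▸ rfl
    let T1 : V n →ₗᵢ[ℂ] V n := ⟨T.toLinearMap, hn⟩
    let g : V n ≃ₗᵢ[ℂ] V n := T1.toLinearIsometryEquiv rfl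
    have hg : ∀ z, g z = T z := fun z => rfl
    have hgm : g ∈ Cen h := by
      intro z
      rw [hg, hg]
      have h1 := (h.continuous.tendsto (T z)).comp (hz z)
      have h2 := hz (h z)
      have h3 : (h ∘ fun m => (u m).1 z) = fun m => (u m).1 (h z) := by
        funext m
        exact (u m).2 z
      rw [h3] at h1
      exact tendsto_nhds_unique h1 h2
    have hcg : cc h ⟨g, hgm⟩ = T := by
      ext z
      rfl
    refine ⟨⟨g, hgm⟩, hcg, ?_⟩
    -- continuity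
    have h1 : Tendsto (fun m => cc h (⟨g, hgm⟩⁻¹ * u m) - 1) atTop (𝓝 0) := by
      have h2 := (hT.const_mul (cc h ⟨g, hgm⟩⁻¹)).sub_const 1
      rw [← hcg, ← map_mul, inv_mul_cancel, map_one, sub_self] at h2
      simpa only [← map_mul] using h2
    have : FiniteDimensional ℝ (V n →L[ℂ] V n) := FiniteDimensional.complexToReal _
    let L : (V n →L[ℂ] V n) →ₗ[ℝ] E :=
      { toFun := fun T => R.D T x
        map_add' := by
          intro a b
          rw [map_add, LinearMap.add_apply]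
        map_smul' := by
          intro a b
          rw [map_smul, LinearMap.smul_apply, RingHom.id_apply] }
    have hL : Continuous L := L.continuous_of_finiteDimensional
    have h2 : Tendsto (fun m => ‖L (cc h (⟨g, hgm⟩⁻¹ * u m) - 1)‖ +
        R.C * ‖cc h (⟨g, hgm⟩⁻¹ * u m) - 1‖ ^ 2 * ‖x‖) atTop (𝓝 0) := by
      have h3 := ((hL.tendsto 0).comp h1).norm
      have h4 := ((h1.norm.pow 2).const_mul R.C).mul_const ‖x‖
      have h5 := h3.add h4
      simpa using h5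
    have h3 : ∀ m, ‖(‖R.ρ (u m).1 x - x‖ - ‖R.ρ g x - x‖)‖ ≤ ‖L (cc h (⟨g, hgm⟩⁻¹ * u m) - 1)‖ +
        R.C * ‖cc h (⟨g, hgm⟩⁻¹ * u m) - 1‖ ^ 2 * ‖x‖ := by
      intro m
      have h4 : ‖(‖R.ρ (u m).1 x - x‖ - ‖R.ρ g x - x‖)‖ ≤ ‖R.ρ (g⁻¹ * (u m).1) x - x‖ := by
        have h5 := abs_norm_sub_norm_le (R.ρ (u m).1 x - x) (R.ρ g x - x)
        rw [Real.norm_eq_abs]
        refine h5.trans (le_of_eq ?_)
        have h6 : R.ρ g (R.ρ (g⁻¹ * (u m).1) x - x) = R.ρ (u m).1 x - x - (R.ρ g x - x) := by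
          rw [map_sub]
          have h7 : R.ρ g (R.ρ (g⁻¹ * (u m).1) x) = R.ρ (u m).1 x := by
            have h8 : (R.ρ g * R.ρ (g⁻¹ * (u m).1)) x = R.ρ (u m).1 x := by
              rw [← map_mul, mul_inv_cancel_left]
            exact h8
          rw [h7]
          abel
        rw [← h6, LinearIsometryEquiv.norm_map]
      refine h4.trans ?_
      have h5 := R.hD (g⁻¹ * (u m).1) x
      have h6 : R.ρ (g⁻¹ * (u m).1) x - x = (R.ρ (g⁻¹ * (u m).1) x - x -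
        R.D (((g⁻¹ * (u m).1 : V n ≃ₗᵢ[ℂ] V n) : V n →L[ℂ] V n) - ContinuousLinearMap.id ℂ (V n)) x)
          + R.D (((g⁻¹ * (u m).1 : V n ≃ₗᵢ[ℂ] V n) : V n →L[ℂ] V n) -
            ContinuousLinearMap.id ℂ (V n)) x := by abel
      rw [h6]
      refine (norm_add_le _ _).trans ?_
      rw [add_comm]
      exact add_le_add le_rfl h5
    rw [← tendsto_sub_nhds_zero_iff]
    exact squeeze_zero_norm h3 h2
  nn U := norm_nonneg _
  one := by
    show ‖R.ρ 1 x - x‖ = 0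
    rw [map_one]
    show ‖x - x‖ = 0
    rw [sub_self, norm_zero]
  mul U W := phi_mul R x U.1 W.1
  inv U := phi_inv R x U.1

theorem t_DIST : S_DIST := by
  intro n E _ _ _ R h x _
  have : ProperSpace (V n →L[ℂ] V n) := FiniteDimensional.proper ℂ _
  obtain ⟨K, h1, h2⟩ := (dat R h x).main
  refine ⟨K, h1, ?_⟩
  intro U hU
  obtain ⟨S, h3, h4⟩ := h2 ⟨U, hU⟩
  refine ⟨S.1, S.2, ?_, ?_⟩
  · exact sub_eq_zero.1 (norm_eq_zero.1 h3)
  · refine le_trans ?_ h4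
    have h5 : ((U * S.1⁻¹ : V n ≃ₗᵢ[ℂ] V n) : V n →L[ℂ] V n) - ContinuousLinearMap.id ℂ (V n) =
        (cc h ⟨U, hU⟩ - cc h S) * cc h S⁻¹ := by
      rw [sub_mul, ← map_mul, ← map_mul, mul_inv_cancel, map_one]
      rfl
    rw [h5]
    refine (norm_mul_le _ _).trans ?_
    have h6 := mul_le_mul_of_nonneg_left ((dat R h x).nrm S⁻¹) (norm_nonneg (cc h ⟨U, hU⟩ - cc h S))
    rwa [mul_one] at h6

end

end Pool.Agent.H448.RS.DIST
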